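import Mathlib

namespace Pool.Agent.Helper49.CDC

open Finset

/-- the Klein group (additive group of the field with four elements) -/
abbrev W := ZMod 2 × ZMod 2

/-- multiplication by a primitive cube root of unity -/
def rot : W →+ W where
  toFun x := (x.2, x.1 + x.2)
  map_zero' := by decide
  map_add' := by decide

/-- powers of the rotation -/
def rotk (k : ZMod 3) : W →+ W := if k = 0 then AddMonoidHom.id W else if k = 1 then rot
  else rot.comp rot

/-- alternating form -/
def om (x y : W) : ZMod 2 := x.1 * y.2 + x.2 * y.1

/-- norm -/
def nn (x : W) : ZMod 2 := x.1 + x.2 + x.1 * x.2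

theorem om_add_right (x y z : W) : om x (y + z) = om x y + om x z := by
  revert x y z; decide

theorem om_add_left (x y z : W) : om (x + y) z = om x z + om y z := by
  revert x y z; decide

theorem om_zero_right (x : W) : om x 0 = 0 := by revert x; decide

theorem om_zero_left (x : W) : om 0 x = 0 := by revert x; decide

theorem om_comm (x y : W) : om x y = om y x := by revert x y; decide

theorem nn_add (x y : W) : nn (x + y) = nn x + nn y + om x y := by revert x y; decide

theorem nn_zero : nn 0 = 0 := by decide

theorem rotk_ne_zero (k : ZMod 3) (x : W) (h : x ≠ 0) : rotk k x ≠ 0 := by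
  revert k x; decide

theorem nn_rotk (k : ZMod 3) (x : W) : nn (rotk k x) = nn x := by
  revert k x; decide

theorem om_rotk (k l : ZMod 3) (x y : W) : om (rotk k x) (rotk l y) = om x (rotk (l - k) y) := by
  revert k l x y; decide

theorem om_rotk_neg (k : ZMod 3) (x y : W) : om x (rotk k y) = om y (rotk (-k) x) := by
  revert k x y; decide

theorem sum_rotk (x : W) : ∑ k : ZMod 3, rotk k x = 0 := by
  revert x; decide

theorem W_add_self (x : W) : x + x = 0 := by revert x; decide

theorem Z_add_self (x : ZMod 2) : x + x = 0 := by revert x; decide

theorem W_eq_of_add (x y : W) (h : x + y = 0) : x = y := by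
  revert x y; decide

/-- om as a homomorphism in the second argument -/
def omHom (x : W) : W →+ ZMod 2 where
  toFun y := om x y
  map_zero' := om_zero_right x
  map_add' := om_add_right x

/-- om as a homomorphism in the first argument -/
def omHom' (y : W) : W →+ ZMod 2 where
  toFun x := om x y
  map_zero' := om_zero_left y
  map_add' := fun a b => om_add_left a b y

theorem om_sum_right {ι : Type*} (s : Finset ι) (x : W) (f : ι → W) :
    om x (∑ i ∈ s, f i) = ∑ i ∈ s, om x (f i) := map_sum (omHom x) f s

theorem om_sum_left {ι : Type*} (s : Finset ι) (y : W) (f : ι → W) :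
    om (∑ i ∈ s, f i) y = ∑ i ∈ s, om (f i) y := map_sum (omHom' y) f s

end Pool.Agent.Helper49.CDC
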