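import Mathlib
import Pool.Agent.Helper49.CDC.Klein

namespace Pool.Agent.Helper49.CDC

open Finset
open scoped Classical

variable {V E : Type*} [Fintype E]

/-- boundary of an edge function -/
noncomputable def bd {M : Type*} [AddCommMonoid M] (ends : E → Sym2 V) (F : E → M) (v : V) : M :=
  ∑ e ∈ univ.filter (fun e => v ∈ ends e), F e

theorem bd_add {M : Type*} [AddCommMonoid M] (ends : E → Sym2 V) (F G : E → M) (v : V) :
    bd ends (fun e => F e + G e) v = bd ends F v + bd ends G v := by
  unfold bd; exact Finset.sum_add_distrib

theorem bd_sum {M ι : Type*} [AddCommMonoid M] (ends : E → Sym2 V) (s : Finset ι) (F : ι → E → M)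
    (v : V) : bd ends (fun e => ∑ i ∈ s, F i e) v = ∑ i ∈ s, bd ends (F i) v := by
  unfold bd; exact Finset.sum_comm

theorem bd_map {M N : Type*} [AddCommMonoid M] [AddCommMonoid N] (ends : E → Sym2 V) (φ : M →+ N)
    (F : E → M) (v : V) : bd ends (fun e => φ (F e)) v = φ (bd ends F v) := by
  unfold bd; exact (map_sum φ _ _).symm

/-- double counting: an edge function is counted at its two ends -/
theorem sum_bd [Fintype V] {M : Type*} [AddCommMonoid M] (ends : E → Sym2 V) (hl : ∀ e, ¬ (ends e).IsDiag)
    (F : E → M) : ∑ v, bd ends F v = ∑ e, (F e + F e) := by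
  unfold bd
  simp only [Finset.sum_filter]
  rw [Finset.sum_comm]
  apply Finset.sum_congr rfl
  intro e _
  have hl' := hl e
  generalize ends e = p at hl'
  induction p with
  | _ a b =>
    have hab : a ≠ b := by simpa using hl'
    rw [← Finset.sum_filter]
    have : (univ.filter (fun v => v ∈ s(a, b))) = {a, b} := by
      ext v; simp
    rw [this, Finset.sum_pair hab]

/-- solvability of a system of boundary equations over the field with two elements -/
theorem solve [Fintype V] (ends : E → Sym2 V) (hl : ∀ e, ¬ (ends e).IsDiag) (S : Set E) (b : V → ZMod 2)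
    (h : ∀ y : V → ZMod 2, (∀ e ∈ S, ∀ u w, ends e = s(u, w) → y u = y w) →
      ∑ v, y v * b v = 0) :
    ∃ F : E → ZMod 2, (∀ e, e ∉ S → F e = 0) ∧ ∀ v, bd ends F v = b v := by
  let A : (E → ZMod 2) →ₗ[ZMod 2] (V → ZMod 2) :=
    { toFun := fun F v => bd ends (fun e => if e ∈ S then F e else 0) v
      map_add' := by
        intro F G
        ext v
        simp only [Pi.add_apply]
        rw [← bd_add]
        congr 1
        ext e
        split_ifs <;> simp
      map_smul' := by
        intro c F
        ext v
        simp only [Pi.smul_apply, smul_eq_mul, RingHom.id_apply]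
        unfold bd
        rw [Finset.mul_sum]
        apply Finset.sum_congr rfl
        intro e _
        by_cases he : e ∈ S
        · simp only [if_pos he]
        · simp only [if_neg he, mul_zero] }
  by_cases hb : b ∈ LinearMap.range A
  · obtain ⟨F, hF⟩ := hb
    refine ⟨fun e => if e ∈ S then F e else 0, ?_, ?_⟩
    · intro e he; simp [he]
    · intro v; exact congrFun hF v
  · exfalso
    obtain ⟨φ, hφ, hr⟩ := Submodule.exists_le_ker_of_notMem hb
    have hexp : ∀ x : V → ZMod 2, φ x = ∑ v, φ (Pi.single v 1) * x v := by
      intro x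
      have hx : x = ∑ v, x v • (Pi.single v 1 : V → ZMod 2) := by
        ext w
        simp [Finset.sum_apply, Pi.single_apply]
      conv_lhs => rw [hx]
      rw [map_sum]
      apply Finset.sum_congr rfl
      intro v _
      rw [map_smul, smul_eq_mul, mul_comm]
    apply hφ
    rw [hexp b]
    apply h
    intro e he u w hew
    have h1 : A (Pi.single e 1) = Pi.single u 1 + Pi.single w 1 := by
      have huw : u ≠ w := by
        have := hl e
        rw [hew] at this
        simpa using this
      ext v
      change bd ends (fun e' => if e' ∈ S then (Pi.single e 1 : E → ZMod 2) e' else 0) v = _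
      unfold bd
      rw [Finset.sum_filter]
      rw [Finset.sum_eq_single e]
      · rw [hew]
        simp only [Sym2.mem_iff, he, if_true, Pi.single_eq_same, Pi.add_apply, Pi.single_apply]
        by_cases hvu : v = u
        · subst hvu; simp [huw]
        · by_cases hvw : v = w
          · subst hvw; simp [hvu]
          · simp [hvu, hvw]
      · intro e' _ hne
        simp [hne]
      · simp
    have h2 : φ (A (Pi.single e 1)) = 0 := hr ⟨_, rfl⟩
    rw [h1, map_add] at h2
    generalize φ (Pi.single u 1) = a at h2
    generalize φ (Pi.single w 1) = c at h2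
    revert a c; decide

/-- the same with values in the Klein group -/
theorem solveW [Fintype V] (ends : E → Sym2 V) (hl : ∀ e, ¬ (ends e).IsDiag) (S : Set E) (b : V → W)
    (h : ∀ y : V → ZMod 2, (∀ e ∈ S, ∀ u w, ends e = s(u, w) → y u = y w) →
      ∑ v, y v • b v = 0) :
    ∃ F : E → W, (∀ e, e ∉ S → F e = 0) ∧ ∀ v, bd ends F v = b v := by
  obtain ⟨F1, hF1, hF1'⟩ := solve ends hl S (fun v => (b v).1) (by
    intro y hy
    have := congrArg Prod.fst (h y hy)
    rw [Prod.fst_sum] at this
    simpa using this)
  obtain ⟨F2, hF2, hF2'⟩ := solve ends hl S (fun v => (b v).2) (by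
    intro y hy
    have := congrArg Prod.snd (h y hy)
    rw [Prod.snd_sum] at this
    simpa using this)
  refine ⟨fun e => (F1 e, F2 e), ?_, ?_⟩
  · intro e he
    simp [hF1 e he, hF2 e he]
  · intro v
    unfold bd at *
    ext
    · rw [Prod.fst_sum]; exact hF1' v
    · rw [Prod.snd_sum]; exact hF2' v

end Pool.Agent.Helper49.CDC
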