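import Mathlib

namespace Pool.Agent.Helper49.CDC

open Finset

variable {P : Type*} [Fintype P] [DecidableEq P]

/-- If a function changes sign (sum over the three rotations of one coordinate vanishes),
its total sum vanishes. -/
theorem sum_eq_zero_of_shift (F : (P → ZMod 3) → ZMod 2) (K : P)
    (h : ∀ z : P → ZMod 3, ∑ k : ZMod 3, F (z + (Pi.single K k : P → ZMod 3)) = 0) :
    ∑ z, F z = 0 := by
  have h1 : ∀ k : ZMod 3, ∑ z, F (z + (Pi.single K k : P → ZMod 3)) = ∑ z, F z := by
    intro k
    exact Fintype.sum_equiv (Equiv.addRight (Pi.single K k : P → ZMod 3)) _ _ (fun z => rfl)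
  have h2 : ∑ k : ZMod 3, ∑ z, F (z + (Pi.single K k : P → ZMod 3)) = 0 := by
    rw [Finset.sum_comm]
    exact Finset.sum_eq_zero (fun z _ => h z)
  simp only [h1] at h2
  rw [Finset.sum_const, Finset.card_univ, ZMod.card] at h2
  have h3 : (3 : ℕ) • (∑ z, F z) = ∑ z, F z := by
    generalize (∑ z, F z) = a
    revert a; decide
  rw [h3] at h2
  exact h2

/-- the matrix -/
def A (T : P → P → ZMod 3 → ZMod 2) (z : P → ZMod 3) (K L : P) : ZMod 2 :=
  if L = K then 1 else T K L (z L - z K)

theorem parity (T : P → P → ZMod 3 → ZMod 2)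
    (hsum : ∀ K L, K ≠ L → ∑ k, T K L k = 0)
    (hsymm : ∀ K L k, K ≠ L → T K L k = T L K (-k)) :
    ∑ z : P → ZMod 3, ∏ K, ∑ L, A T z K L = 1 := by
  classical
  have e1 : ∀ z : P → ZMod 3, ∏ K, ∑ L, A T z K L = ∑ f : P → P, ∏ K, A T z K (f K) := by
    intro z
    exact Fintype.prod_sum _
  simp only [e1]
  rw [Finset.sum_comm]
  -- functions missing a value
  have hW1 : ∀ (f : P → P) (K : P), (∀ L, f L ≠ K) → ∑ z : P → ZMod 3, ∏ L, A T z L (f L) = 0 := by
    intro f K hK
    apply sum_eq_zero_of_shift _ K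
    intro z
    have h1 : ∀ k : ZMod 3, ∏ L, A T (z + Pi.single K k) L (f L) =
        T K (f K) (z (f K) - z K - k) * ∏ L ∈ univ.erase K, A T z L (f L) := by
      intro k
      rw [← Finset.mul_prod_erase univ _ (mem_univ K)]
      congr 1
      · unfold A
        rw [if_neg (hK K)]
        congr 1
        simp [hK K]
        ring
      · apply Finset.prod_congr rfl
        intro L hL
        have hLK : L ≠ K := (Finset.mem_erase.1 hL).1
        unfold A
        by_cases hfl : f L = L
        · simp [hfl]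
        · rw [if_neg hfl, if_neg hfl]
          simp [hLK, hK L]
    simp only [h1]
    rw [← Finset.sum_mul]
    have h2 : ∑ k : ZMod 3, T K (f K) (z (f K) - z K - k) = ∑ k, T K (f K) k :=
      Fintype.sum_equiv (Equiv.subLeft (z (f K) - z K)) _ _ (fun k => rfl)
    rw [h2, hsum K (f K) (Ne.symm (hK K)), zero_mul]
  -- involutions
  have hW2 : ∀ (f : P → P) (K : P), f K ≠ K → (∀ L, f (f L) = L) →
      ∑ z : P → ZMod 3, ∏ L, A T z L (f L) = 0 := by
    intro f K hK hf
    apply sum_eq_zero_of_shift _ K
    intro z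
    have hinj : ∀ L, f L = K → L = f K := by
      intro L hL
      rw [← hL, hf]
    have hmem : f K ∈ univ.erase K := by simp [hK]
    have h1 : ∀ k : ZMod 3, ∏ L, A T (z + Pi.single K k) L (f L) =
        T K (f K) (z (f K) - z K - k) * ∏ L ∈ (univ.erase K).erase (f K), A T z L (f L) := by
      intro k
      rw [← Finset.mul_prod_erase univ _ (mem_univ K), ← Finset.mul_prod_erase _ _ hmem,
        ← mul_assoc]
      congr 1
      · unfold A
        rw [if_neg hK, hf K, if_neg (Ne.symm hK), hsymm (f K) K _ hK]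
        have hA : (z + (Pi.single K k : P → ZMod 3)) (f K) -
            (z + (Pi.single K k : P → ZMod 3)) K = z (f K) - z K - k := by
          simp [hK]
          ring
        have h' : -((z + (Pi.single K k : P → ZMod 3)) K -
            (z + (Pi.single K k : P → ZMod 3)) (f K)) = z (f K) - z K - k := by
          rw [← hA]; ring
        rw [hA, h']
        generalize T K (f K) (z (f K) - z K - k) = a
        revert a; decide
      · apply Finset.prod_congr rfl
        intro L hL
        have hLf : L ≠ f K := (Finset.mem_erase.1 hL).1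
        have hLK : L ≠ K := (Finset.mem_erase.1 (Finset.mem_erase.1 hL).2).1
        have hfL : f L ≠ K := fun h => hLf (hinj L h)
        unfold A
        by_cases hfl : f L = L
        · simp [hfl]
        · rw [if_neg hfl, if_neg hfl]
          simp [hLK, hfL]
    simp only [h1]
    rw [← Finset.sum_mul]
    have h2 : ∑ k : ZMod 3, T K (f K) (z (f K) - z K - k) = ∑ k, T K (f K) k :=
      Fintype.sum_equiv (Equiv.subLeft (z (f K) - z K)) _ _ (fun k => rfl)
    rw [h2, hsum K (f K) (Ne.symm hK), zero_mul]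
  -- inverse permutations
  have hW3 : ∀ π : Equiv.Perm P, ∑ z : P → ZMod 3, ∏ L, A T z L (π⁻¹ L) =
      ∑ z : P → ZMod 3, ∏ L, A T z L (π L) := by
    intro π
    apply Finset.sum_congr rfl
    intro z _
    rw [← Equiv.prod_comp π]
    apply Finset.prod_congr rfl
    intro L _
    unfold A
    have hpi : (π⁻¹ : Equiv.Perm P) (π L) = L := by simp
    rw [hpi]
    by_cases h : π L = L
    · simp [h]
    · rw [if_neg (Ne.symm h), if_neg h, hsymm _ _ _ h]
      congr 1
      ring
  -- restriction to permutations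
  have hperm : ∑ f : P → P, ∑ z : P → ZMod 3, ∏ K, A T z K (f K) =
      ∑ π : Equiv.Perm P, ∑ z : P → ZMod 3, ∏ K, A T z K (π K) := by
    rw [← Finset.sum_filter_add_sum_filter_not univ (fun f : P → P => Function.Bijective f)]
    have hz : ∑ f ∈ univ.filter (fun f : P → P => ¬ Function.Bijective f),
        ∑ z : P → ZMod 3, ∏ K, A T z K (f K) = 0 := by
      apply Finset.sum_eq_zero
      intro f hf
      have hf' : ¬ Function.Surjective f := by
        intro hs
        exact (Finset.mem_filter.1 hf).2 (Finite.surjective_iff_bijective.1 hs)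
      obtain ⟨K, hK⟩ := not_forall.1 hf'
      exact hW1 f K (fun L h => hK ⟨L, h⟩)
    rw [hz, add_zero]
    symm
    apply Finset.sum_bij (fun (π : Equiv.Perm P) _ => (π : P → P))
    · intro π _
      simp
    · intro π _ ρ _ h
      exact Equiv.coe_fn_injective h
    · intro f hf
      exact ⟨Equiv.ofBijective f (Finset.mem_filter.1 hf).2, mem_univ _, rfl⟩
    · intro π _
      rfl
  rw [hperm, ← Finset.add_sum_erase univ _ (mem_univ (1 : Equiv.Perm P))]
  have hrest : ∑ π ∈ univ.erase (1 : Equiv.Perm P), ∑ z : P → ZMod 3, ∏ K, A T z K (π K) = 0 := by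
    apply Finset.sum_involution (fun π _ => π⁻¹)
    · intro π _
      rw [hW3 π]
      generalize (∑ z : P → ZMod 3, ∏ L, A T z L (π L)) = a
      revert a; decide
    · intro π hπ hne hinv
      apply hne
      have h1 : π ≠ 1 := (Finset.mem_erase.1 hπ).1
      obtain ⟨K, hK⟩ : ∃ K, π K ≠ K := by
        by_contra hcon
        push Not at hcon
        exact h1 (Equiv.ext hcon)
      apply hW2 π K hK
      intro L
      nth_rewrite 1 [← hinv]
      simp
    · intro π _
      simp
    · intro π hπ
      have h1 : π ≠ 1 := (Finset.mem_erase.1 hπ).1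
      exact Finset.mem_erase.2 ⟨fun h => h1 (inv_eq_one.1 h), mem_univ _⟩
  rw [hrest, add_zero]
  have : ∀ z : P → ZMod 3, ∏ K, A T z K ((1 : Equiv.Perm P) K) = 1 := by
    intro z
    apply Finset.prod_eq_one
    intro K _
    simp [A]
  simp only [this]
  rw [Finset.sum_const, Finset.card_univ, Fintype.card_fun, ZMod.card]
  simp only [nsmul_eq_mul, mul_one, Nat.cast_pow]
  have : ((3 : ℕ) : ZMod 2) = 1 := by decide
  rw [this, one_pow]

theorem exists_rotation (T : P → P → ZMod 3 → ZMod 2)
    (hsum : ∀ K L, K ≠ L → ∑ k, T K L k = 0)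
    (hsymm : ∀ K L k, K ≠ L → T K L k = T L K (-k)) :
    ∃ z : P → ZMod 3, ∀ K, ∑ L ∈ univ.erase K, T K L (z L - z K) = 0 := by
  classical
  have h := parity T hsum hsymm
  obtain ⟨z, -, hz⟩ : ∃ z ∈ (univ : Finset (P → ZMod 3)), ∏ K, ∑ L, A T z K L ≠ 0 := by
    apply Finset.exists_ne_zero_of_sum_ne_zero
    rw [h]; decide
  refine ⟨z, fun K => ?_⟩
  have h1 : ∑ L, A T z K L ≠ 0 := (Finset.prod_ne_zero_iff.1 hz) K (mem_univ K)
  rw [← Finset.add_sum_erase univ _ (mem_univ K)] at h1
  have h2 : ∑ L ∈ univ.erase K, A T z K L = ∑ L ∈ univ.erase K, T K L (z L - z K) := by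
    apply Finset.sum_congr rfl
    intro L hL
    unfold A
    rw [if_neg (Finset.mem_erase.1 hL).1]
  rw [h2] at h1
  have h3 : A T z K K = 1 := by simp [A]
  rw [h3] at h1
  generalize (∑ L ∈ univ.erase K, T K L (z L - z K)) = a at h1
  revert a; decide

end Pool.Agent.Helper49.CDC
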