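import Mathlib
import Pool.Agent.Helper49.CDC.Klein
import Pool.Agent.Helper49.CDC.Parity
import Pool.Agent.Helper49.CDC.Flow

namespace Pool.Agent.Helper49.CDC

open Finset
open scoped Classical

variable {V E : Type*} [Fintype E]

/-- restriction of an edge function to a set -/
noncomputable def rs {M : Type*} [Zero M] (Z : Set E) (F : E → M) (e : E) : M :=
  if e ∈ Z then F e else 0

/-- the vertex is on 0 or 2 edges of Z -/
def Deg02 (ends : E → Sym2 V) (Z : Set E) (v : V) : Prop :=
  (univ.filter (fun e => v ∈ ends e ∧ e ∈ Z)).card = 0 ∨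
    (univ.filter (fun e => v ∈ ends e ∧ e ∈ Z)).card = 2

theorem bd_rs {M : Type*} [AddCommMonoid M] (ends : E → Sym2 V) (Z : Set E) (F : E → M) (v : V) :
    bd ends (rs Z F) v = ∑ e ∈ univ.filter (fun e => v ∈ ends e ∧ e ∈ Z), F e := by
  unfold bd rs
  rw [← Finset.sum_filter, Finset.filter_filter]

/-- equal values on the Z-edges at v cancel -/
theorem bd_rs_eq_zero (ends : E → Sym2 V) (Z : Set E) (v : V) (h2 : Deg02 ends Z v)
    (u : E → ZMod 2)
    (hu : ∀ e ∈ Z, ∀ e' ∈ Z, v ∈ ends e → v ∈ ends e' → u e = u e') :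
    bd ends (rs Z u) v = 0 := by
  rw [bd_rs]
  rcases h2 with h0 | h2
  · rw [Finset.card_eq_zero] at h0
    rw [h0, Finset.sum_empty]
  · obtain ⟨a, b, hab, hs⟩ := Finset.card_eq_two.1 h2
    rw [hs, Finset.sum_pair hab]
    have ha : a ∈ univ.filter (fun e => v ∈ ends e ∧ e ∈ Z) := by rw [hs]; simp
    have hb : b ∈ univ.filter (fun e => v ∈ ends e ∧ e ∈ Z) := by rw [hs]; simp
    simp only [Finset.mem_filter, Finset.mem_univ, true_and] at ha hb
    rw [hu a ha.2 b hb.2 ha.1 hb.1]
    exact Z_add_self _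

/-- a flow vanishing on the non-Z-edges at v is constant on the Z-edges at v -/
theorem const_at (ends : E → Sym2 V) (Z : Set E) (v : V) (h2 : Deg02 ends Z v)
    (F : E → W) (hF : bd ends F v = 0) (hF0 : ∀ e, e ∉ Z → v ∈ ends e → F e = 0) :
    ∀ e ∈ Z, ∀ e' ∈ Z, v ∈ ends e → v ∈ ends e' → F e = F e' := by
  intro e he e' he' hv hv'
  have h1 : bd ends (rs Z F) v = 0 := by
    rw [← hF]
    unfold bd
    apply Finset.sum_congr rfl
    intro a ha
    unfold rs
    split_ifs with h
    · rfl
    · exact (hF0 a h (Finset.mem_filter.1 ha).2).symm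
  rw [bd_rs] at h1
  have hem : e ∈ univ.filter (fun e => v ∈ ends e ∧ e ∈ Z) := by simp [hv, he]
  have hem' : e' ∈ univ.filter (fun e => v ∈ ends e ∧ e ∈ Z) := by simp [hv', he']
  rcases h2 with h0 | h2
  · rw [Finset.card_eq_zero] at h0
    rw [h0] at hem
    simp at hem
  · obtain ⟨a, b, hab, hs⟩ := Finset.card_eq_two.1 h2
    rw [hs, Finset.sum_pair hab] at h1
    rw [hs] at hem hem'
    have hab' : F a = F b := W_eq_of_add _ _ h1
    simp only [Finset.mem_insert, Finset.mem_singleton] at hem hem'
    rcases hem with rfl | rfl <;> rcases hem' with rfl | rfl <;> simp [hab']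

/-- sum over the vertices of a class -/
noncomputable def LL [Fintype V] {P : Type*} (ends : E → Sym2 V) (Z : Set E) (comp : V → P) (K : P)
    (u : E → ZMod 2) : ZMod 2 :=
  ∑ v ∈ univ.filter (fun v => comp v = K), bd ends (rs Z u) v

theorem LL_sum_args [Fintype V] {P ι : Type*} (ends : E → Sym2 V) (Z : Set E) (comp : V → P) (K : P)
    (s : Finset ι) (u : ι → E → ZMod 2) :
    LL ends Z comp K (fun e => ∑ i ∈ s, u i e) = ∑ i ∈ s, LL ends Z comp K (u i) := by
  unfold LL
  rw [Finset.sum_comm]
  apply Finset.sum_congr rfl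
  intro v _
  rw [← bd_sum]
  congr 1
  ext e
  unfold rs
  split_ifs
  · rfl
  · simp

theorem LL_add [Fintype V] {P : Type*} (ends : E → Sym2 V) (Z : Set E) (comp : V → P) (K : P)
    (u w : E → ZMod 2) :
    LL ends Z comp K (fun e => u e + w e) = LL ends Z comp K u + LL ends Z comp K w := by
  unfold LL
  rw [← Finset.sum_add_distrib]
  apply Finset.sum_congr rfl
  intro v _
  rw [← bd_add]
  congr 1
  ext e
  unfold rs
  split_ifs
  · rfl
  · simp

theorem sum_LL [Fintype V] {P : Type*} [Fintype P] (ends : E → Sym2 V)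
    (hl : ∀ e, ¬ (ends e).IsDiag) (Z : Set E) (comp : V → P)
    (u : E → ZMod 2) : ∑ K, LL ends Z comp K u = 0 := by
  have h1 : ∑ K, LL ends Z comp K u = ∑ v, bd ends (rs Z u) v := by
    unfold LL
    simp only [Finset.sum_filter]
    rw [Finset.sum_comm]
    apply Finset.sum_congr rfl
    intro v _
    simp
  rw [h1, sum_bd ends hl]
  apply Finset.sum_eq_zero
  intro e _
  exact Z_add_self _

theorem core [Fintype V] {P : Type*} [Fintype P] (ends : E → Sym2 V)
    (hl : ∀ e, ¬ (ends e).IsDiag) (Z : Set E) (hdeg : ∀ v, Deg02 ends Z v) (comp : V → P)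
    (hcomp : ∀ e, e ∉ Z → ∀ u w, ends e = s(u, w) → comp u = comp w)
    (hcomp' : ∀ y : V → ZMod 2, (∀ e, e ∉ Z → ∀ u w, ends e = s(u, w) → y u = y w) →
      ∃ y' : P → ZMod 2, ∀ v, y v = y' (comp v))
    (g : E → W)
    (hz : ∀ y : V → ZMod 2, (∀ e ∈ Z, ∀ u w, ends e = s(u, w) → y u = y w) →
      ∀ K, ∑ v ∈ univ.filter (fun v => comp v = K), y v • bd ends (rs Zᶜ g) v = 0) :
    ∃ (σ : E → W) (τ : E → ZMod 2), (∀ v, bd ends σ v = 0) ∧ (∀ v, bd ends τ v = 0) ∧
      (∀ e, e ∉ Z → ∃ k, σ e = rotk k (g e)) ∧ (∀ e ∈ Z, τ e = nn (σ e)) := by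
  classical
  -- class of an edge
  have hab : ∀ e, ∃ a b, ends e = s(a, b) := by
    intro e
    generalize ends e = p
    induction p with
    | _ a b => exact ⟨a, b, rfl⟩
  have hpc : ∃ pc : E → P, ∀ e, e ∉ Z → ∀ v, v ∈ ends e → comp v = pc e := by
    choose a b hab using hab
    refine ⟨fun e => comp (a e), ?_⟩
    intro e he v hv
    have h2 := hcomp e he _ _ (hab e)
    rw [hab e, Sym2.mem_iff] at hv
    rcases hv with hv | hv
    · rw [hv]
    · rw [hv, ← h2]
  obtain ⟨pc, hpc⟩ := hpc
  -- flows
  have hF : ∀ K : P, ∃ F : E → W, (∀ e, e ∉ Z → F e = 0) ∧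
      ∀ v, bd ends F v = if comp v = K then bd ends (rs Zᶜ g) v else 0 := by
    intro K
    apply solveW ends hl Z
    intro y hy
    have := hz y hy K
    rw [Finset.sum_filter] at this
    refine Eq.trans (Finset.sum_congr rfl ?_) this
    intro v _
    split_ifs
    · rfl
    · exact smul_zero _
  choose F hF0 hFb using hF
  let sg : P → E → W := fun K e => F K e + (if pc e = K then rs Zᶜ g e else 0)
  have hsg_off : ∀ K e, e ∉ Z → sg K e = if pc e = K then g e else 0 := by
    intro K e he
    change F K e + _ = _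
    rw [hF0 K e he, zero_add]
    have : rs Zᶜ g e = g e := by unfold rs; simp [he]
    rw [this]
  have hsg_flow : ∀ K v, bd ends (sg K) v = 0 := by
    intro K v
    change bd ends (fun e => F K e + (if pc e = K then rs Zᶜ g e else 0)) v = 0
    rw [bd_add, hFb]
    have : bd ends (fun e => if pc e = K then rs Zᶜ g e else 0) v =
        if comp v = K then bd ends (rs Zᶜ g) v else 0 := by
      unfold bd
      by_cases hv : comp v = K
      · rw [if_pos hv]
        apply Finset.sum_congr rfl
        intro e he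
        by_cases heZ : e ∈ Z
        · simp [rs, heZ]
        · have h1 : pc e = K := by rw [← hpc e heZ v (Finset.mem_filter.1 he).2, hv]
          simp only [h1, if_true]
      · rw [if_neg hv]
        apply Finset.sum_eq_zero
        intro e he
        by_cases heZ : e ∈ Z
        · simp [rs, heZ]
        · have h1 : pc e ≠ K := by rw [← hpc e heZ v (Finset.mem_filter.1 he).2]; exact hv
          simp only [h1, if_false]
    rw [this]
    exact W_add_self _
  -- constancy
  have hconst : ∀ K v, comp v ≠ K → ∀ e ∈ Z, ∀ e' ∈ Z, v ∈ ends e → v ∈ ends e' →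
      sg K e = sg K e' := by
    intro K v hv
    apply const_at ends Z v (hdeg v) _ (hsg_flow K v)
    intro e he hve
    rw [hsg_off K e he, ← hpc e he v hve, if_neg hv]
  -- the functions T
  let T : P → P → ZMod 3 → ZMod 2 := fun K L k =>
    LL ends Z comp K (fun e => om (sg K e) (rotk k (sg L e)))
  have hT1 : ∀ K L, K ≠ L → ∑ k, T K L k = 0 := by
    intro K L _
    change ∑ k, LL ends Z comp K (fun e => om (sg K e) (rotk k (sg L e))) = 0
    rw [← LL_sum_args]
    have : (fun e => ∑ k : ZMod 3, om (sg K e) (rotk k (sg L e))) = fun _ => 0 := by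
      ext e
      rw [← om_sum_right, sum_rotk, om_zero_right]
    rw [this]
    unfold LL
    apply Finset.sum_eq_zero
    intro v _
    unfold bd rs
    simp
  have hLLoff : ∀ (u : E → ZMod 2) (M : P), (∀ v, comp v = M → ∀ e ∈ Z, ∀ e' ∈ Z,
      v ∈ ends e → v ∈ ends e' → u e = u e') → LL ends Z comp M u = 0 := by
    intro u M h
    unfold LL
    apply Finset.sum_eq_zero
    intro v hv
    exact bd_rs_eq_zero ends Z v (hdeg v) u (h v (Finset.mem_filter.1 hv).2)
  have hT2 : ∀ K L k, K ≠ L → T K L k = T L K (-k) := by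
    intro K L k hKL
    change LL ends Z comp K (fun e => om (sg K e) (rotk k (sg L e))) =
      LL ends Z comp L (fun e => om (sg L e) (rotk (-k) (sg K e)))
    have h1 : (fun e => om (sg L e) (rotk (-k) (sg K e))) =
        fun e => om (sg K e) (rotk k (sg L e)) := by
      ext e
      exact (om_rotk_neg k _ _).symm
    rw [h1]
    have h2 := sum_LL ends hl Z comp (fun e => om (sg K e) (rotk k (sg L e)))
    rw [← Finset.add_sum_erase univ _ (mem_univ K),
      ← Finset.add_sum_erase (univ.erase K) _ (by simp [Ne.symm hKL] : L ∈ univ.erase K)] at h2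
    rw [Finset.sum_eq_zero] at h2
    · rw [add_zero] at h2
      generalize LL ends Z comp K (fun e => om (sg K e) (rotk k (sg L e))) = a at h2
      generalize LL ends Z comp L (fun e => om (sg K e) (rotk k (sg L e))) = b at h2
      revert a b; decide
    · intro M hM
      have hML : M ≠ L := (Finset.mem_erase.1 hM).1
      have hMK : M ≠ K := (Finset.mem_erase.1 (Finset.mem_erase.1 hM).2).1
      apply hLLoff
      intro v hv e he e' he' h h'
      rw [hconst K v (by rw [hv]; exact hMK) e he e' he' h h',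
        hconst L v (by rw [hv]; exact hML) e he e' he' h h']
  obtain ⟨z, hzz⟩ := exists_rotation T hT1 hT2
  -- the flow sigma
  let σ : E → W := fun e => ∑ K, rotk (z K) (sg K e)
  have hσflow : ∀ v, bd ends σ v = 0 := by
    intro v
    change bd ends (fun e => ∑ K, rotk (z K) (sg K e)) v = 0
    rw [bd_sum]
    apply Finset.sum_eq_zero
    intro K _
    rw [bd_map, hsg_flow, map_zero]
  have hσoff : ∀ e, e ∉ Z → σ e = rotk (z (pc e)) (g e) := by
    intro e he
    change ∑ K, rotk (z K) (sg K e) = _
    rw [Finset.sum_eq_single (pc e)]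
    · rw [hsg_off _ e he, if_pos rfl]
    · intro K _ hK
      rw [hsg_off _ e he, if_neg (Ne.symm hK), map_zero]
    · simp
  -- conditions
  have hcond : ∀ K, LL ends Z comp K (fun e => nn (σ e)) = 0 := by
    intro K
    let ρ : E → W := fun e => ∑ L ∈ univ.erase K, rotk (z L) (sg L e)
    have hsplit : ∀ e, σ e = rotk (z K) (sg K e) + ρ e := by
      intro e
      exact (Finset.add_sum_erase univ (fun L => rotk (z L) (sg L e)) (mem_univ K)).symm
    have h1 : (fun e => nn (σ e)) = fun e => (nn (sg K e) + nn (ρ e)) +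
        ∑ L ∈ univ.erase K, om (sg K e) (rotk (z L - z K) (sg L e)) := by
      ext e
      rw [hsplit e, nn_add, nn_rotk]
      congr 1
      change om (rotk (z K) (sg K e)) (∑ L ∈ univ.erase K, rotk (z L) (sg L e)) = _
      rw [om_sum_right]
      apply Finset.sum_congr rfl
      intro L _
      exact om_rotk _ _ _ _
    rw [h1, LL_add, LL_add, LL_sum_args]
    have h2 : LL ends Z comp K (fun e => nn (sg K e)) = 0 := by
      have h3 := sum_LL ends hl Z comp (fun e => nn (sg K e))
      rw [← Finset.add_sum_erase univ _ (mem_univ K)] at h3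
      rw [Finset.sum_eq_zero, add_zero] at h3
      · exact h3
      · intro M hM
        apply hLLoff
        intro v hv e he e' he' h h'
        rw [hconst K v (by rw [hv]; exact (Finset.mem_erase.1 hM).1) e he e' he' h h']
    have h3 : LL ends Z comp K (fun e => nn (ρ e)) = 0 := by
      apply hLLoff
      intro v hv e he e' he' h h'
      have : ρ e = ρ e' := by
        apply Finset.sum_congr rfl
        intro L hL
        rw [hconst L v (by rw [hv]; exact Ne.symm (Finset.mem_erase.1 hL).1) e he e' he' h h']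
      rw [this]
    rw [h2, h3, zero_add, zero_add]
    exact hzz K
  -- the flow tau
  obtain ⟨τ0, hτ0, hτb⟩ := solve ends hl Zᶜ (fun v => bd ends (rs Z (fun e => nn (σ e))) v) (by
    intro y hy
    obtain ⟨y', hy'⟩ := hcomp' y (fun e he => hy e he)
    have : ∑ v, y v * bd ends (rs Z (fun e => nn (σ e))) v =
        ∑ K, y' K * LL ends Z comp K (fun e => nn (σ e)) := by
      unfold LL
      rw [← Finset.sum_fiberwise univ comp]
      apply Finset.sum_congr rfl
      intro K _
      rw [Finset.mul_sum]
      apply Finset.sum_congr rfl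
      intro v hv
      rw [hy' v, (Finset.mem_filter.1 hv).2]
    rw [this]
    apply Finset.sum_eq_zero
    intro K _
    rw [hcond K, mul_zero])
  refine ⟨σ, fun e => rs Z (fun e => nn (σ e)) e + τ0 e, hσflow, ?_, ?_, ?_⟩
  · intro v
    rw [bd_add, hτb]
    exact Z_add_self _
  · intro e he
    exact ⟨_, hσoff e he⟩
  · intro e he
    change rs Z (fun e => nn (σ e)) e + τ0 e = _
    rw [hτ0 e (by simpa using he)]
    simp [rs, he]

end Pool.Agent.Helper49.CDC
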