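import Mathlib

namespace Pool.Agent.Helper49.CDC

variable {V E : Type*}

/-- `C` is the edge set of a cycle of the multigraph with vertex set `V`, edge set `E` and
edge ends `ends`: there are `n ≥ 2` distinct vertices `v i` and distinct edges `e i`
(`i` modulo `n`) such that `e i` joins `v i` and `v (i + 1)`, and `C` consists of the `e i`. -/
def IsCycle (ends : E → Sym2 V) (C : Set E) : Prop :=
  ∃ (n : ℕ) (v : ZMod n → V) (e : ZMod n → E), 2 ≤ n ∧ Function.Injective v ∧
    Function.Injective e ∧ (∀ i, ends (e i) = s(v i, v (i + 1))) ∧ Set.range e = C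

/-- the vertices incident with an edge of `C` -/
def verts (ends : E → Sym2 V) (C : Set E) : Set V := {v | ∃ e ∈ C, v ∈ ends e}

/-- `u` and `v` are joined by a walk none of whose edges lies in `Z` -/
def Joined (ends : E → Sym2 V) (Z : Set E) : V → V → Prop :=
  Relation.ReflTransGen (fun a b => ∃ e, e ∉ Z ∧ ends e = s(a, b))

/-- the sum of the values of `g` on the edges at the vertex `v` -/
noncomputable def vsum (ends : E → Sym2 V) (g : E → ZMod 2 × ZMod 2) (v : V) : ZMod 2 × ZMod 2 :=
  ∑ᶠ e ∈ {e | v ∈ ends e}, g e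

/-- `D` is a 5-cycle double cover: five edge sets of even subgraphs such that every edge is in
exactly two of them -/
def IsFiveCDC (ends : E → Sym2 V) (D : Fin 5 → Set E) : Prop :=
  (∀ i v, Even {e | e ∈ D i ∧ v ∈ ends e}.ncard) ∧ ∀ e, {i | e ∈ D i}.ncard = 2

end Pool.Agent.Helper49.CDC
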