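import Mathlib
import Pool.Agent.Helper49.CDC.Defs
import Pool.Agent.Helper49.CDC.Core

namespace Pool.Agent.Helper49.CDC

open Finset
open scoped Classical

variable {V E : Type*}

theorem even_of_bd [Fintype E] (ends : E → Sym2 V) (u : E → ZMod 2) (v : V) (h : bd ends u v = 0) :
    Even {e | u e = 1 ∧ v ∈ ends e}.ncard := by
  have h1 : {e | u e = 1 ∧ v ∈ ends e} = ↑(univ.filter (fun e => u e = 1 ∧ v ∈ ends e)) := by
    ext e; simp
  rw [h1, Set.ncard_coe_finset]
  have h2 : ((univ.filter (fun e => u e = 1 ∧ v ∈ ends e)).card : ZMod 2) = bd ends u v := by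
    rw [Finset.card_eq_sum_ones, Nat.cast_sum]
    unfold bd
    rw [Finset.sum_filter, Finset.sum_filter]
    apply Finset.sum_congr rfl
    intro e _
    by_cases hv : v ∈ ends e
    · simp only [hv, and_true, if_true]
      generalize u e = a
      revert a; decide
    · simp [hv]
  rw [h] at h2
  exact (ZMod.natCast_eq_zero_iff_even).1 h2

theorem fiveCDC [Fintype E] (ends : E → Sym2 V) (Z : Set E) (hdeg : ∀ v, Deg02 ends Z v)
    (σ : E → W) (τ : E → ZMod 2) (hσ : ∀ v, bd ends σ v = 0) (hτ : ∀ v, bd ends τ v = 0)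
    (h0 : ∀ e, e ∉ Z → σ e ≠ 0) (h1 : ∀ e ∈ Z, τ e = nn (σ e)) :
    ∃ D : Fin 5 → Set E, D 0 = Z ∧ IsFiveCDC ends D := by
  have hcard : Fintype.card (Fin 4) = Fintype.card W := by decide
  let q : Fin 4 ≃ W := Fintype.equivOfCardEq hcard
  let x : E → ZMod 2 := rs Z (fun _ => 1)
  have hx : ∀ v, bd ends x v = 0 := by
    intro v
    exact bd_rs_eq_zero ends Z v (hdeg v) _ (fun _ _ _ _ _ _ => rfl)
  let ind : W → E → ZMod 2 := fun w e => om w (σ e) + τ e + x e * (1 + nn w)
  have hind : ∀ w v, bd ends (ind w) v = 0 := by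
    intro w v
    change bd ends (fun e => om w (σ e) + τ e + x e * (1 + nn w)) v = 0
    rw [bd_add, bd_add, hτ]
    have e1 : bd ends (fun e => om w (σ e)) v = 0 := by
      have := bd_map ends (omHom w) σ v
      rw [hσ v, map_zero] at this
      exact this
    have e2 : bd ends (fun e => x e * (1 + nn w)) v = 0 := by
      have : bd ends (fun e => x e * (1 + nn w)) v = bd ends x v * (1 + nn w) := by
        unfold bd; rw [Finset.sum_mul]
      rw [this, hx, zero_mul]
    rw [e1, e2]; simp
  let D : Fin 5 → Set E := Fin.cons Z (fun i : Fin 4 => {e | ind (q i) e = 1})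
  refine ⟨D, rfl, ?_, ?_⟩
  · intro i v
    refine Fin.cases ?_ ?_ i
    · have : {e | e ∈ D 0 ∧ v ∈ ends e} = {e | x e = 1 ∧ v ∈ ends e} := by
        ext e
        change e ∈ Z ∧ v ∈ ends e ↔ rs Z (fun _ => (1 : ZMod 2)) e = 1 ∧ v ∈ ends e
        unfold rs
        by_cases he : e ∈ Z <;> simp [he]
      rw [this]
      exact even_of_bd ends x v (hx v)
    · intro j
      exact even_of_bd ends (ind (q j)) v (hind (q j) v)
  · intro e
    have h2 : {i | e ∈ D i} = ↑(univ.filter (fun i => e ∈ D i)) := by
      ext i; simp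
    rw [h2, Set.ncard_coe_finset, Finset.card_eq_sum_ones, Finset.sum_filter, Fin.sum_univ_succ]
    have h3 : ∑ i : Fin 4, (if e ∈ D i.succ then 1 else 0) =
        ∑ w : W, (if ind w e = 1 then 1 else 0) := by
      rw [← Equiv.sum_comp q]
      apply Finset.sum_congr rfl
      intro i _
      exact if_congr Iff.rfl rfl rfl
    rw [h3]
    by_cases he : e ∈ Z
    · have hD0 : e ∈ D 0 := he
      have hxe : x e = 1 := by change rs Z (fun _ => (1 : ZMod 2)) e = 1; simp [rs, he]
      rw [if_pos hD0]
      have : ∀ w, ind w e = om w (σ e) + nn (σ e) + 1 * (1 + nn w) := by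
        intro w
        change om w (σ e) + τ e + x e * (1 + nn w) = _
        rw [h1 e he, hxe]
      simp only [this]
      generalize σ e = s
      revert s; decide
    · have hD0 : e ∉ D 0 := he
      have hxe : x e = 0 := by change rs Z (fun _ => (1 : ZMod 2)) e = 0; simp [rs, he]
      rw [if_neg hD0]
      have : ∀ w, ind w e = om w (σ e) + τ e := by
        intro w
        change om w (σ e) + τ e + x e * (1 + nn w) = _
        rw [hxe, zero_mul, add_zero]
      simp only [this]
      have hs := h0 e he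
      generalize σ e = s at hs
      generalize τ e = t
      revert s t; decide

/-- a cycle meets each of its vertices in two edges -/
theorem cycle_two [Fintype E] {ends : E → Sym2 V} {C : Set E} (hC : IsCycle ends C) (v : V)
    (hv : v ∈ verts ends C) : (univ.filter (fun e => v ∈ ends e ∧ e ∈ C)).card = 2 := by
  obtain ⟨n, vv, ee, hn, hvi, hei, hends, hr⟩ := hC
  obtain ⟨e, heC, hve⟩ := hv
  have hk : ∃ k, v = vv k := by
    rw [← hr] at heC
    obtain ⟨l, rfl⟩ := heC
    rw [hends, Sym2.mem_iff] at hve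
    rcases hve with h | h
    · exact ⟨_, h⟩
    · exact ⟨_, h⟩
  obtain ⟨k, rfl⟩ := hk
  have hset : univ.filter (fun e => vv k ∈ ends e ∧ e ∈ C) = {ee k, ee (k - 1)} := by
    ext e
    simp only [Finset.mem_filter, Finset.mem_univ, true_and, Finset.mem_insert,
      Finset.mem_singleton]
    constructor
    · rintro ⟨h1, h2⟩
      rw [← hr] at h2
      obtain ⟨l, rfl⟩ := h2
      rw [hends, Sym2.mem_iff] at h1
      rcases h1 with h | h
      · left; rw [hvi h]
      · right
        rw [hvi h]; simp
    · rintro (h | h)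
      · subst h
        refine ⟨?_, ?_⟩
        · rw [hends]; simp
        · rw [← hr]; exact ⟨_, rfl⟩
      · subst h
        refine ⟨?_, ?_⟩
        · rw [hends]; simp
        · rw [← hr]; exact ⟨_, rfl⟩
  rw [hset]
  apply Finset.card_pair
  intro h
  have h' := hei h
  have h1 : (1 : ZMod n) = 0 := by
    have : k - (k - 1) = 0 := sub_eq_zero.2 h'
    simpa using this
  have : Fact (1 < n) := ⟨by omega⟩
  exact one_ne_zero h1

/-- a function constant along the edges of a cycle is constant on its vertices -/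
theorem cycle_const {ends : E → Sym2 V} {C : Set E} (hC : IsCycle ends C) (y : V → ZMod 2)
    (hy : ∀ e ∈ C, ∀ u w, ends e = s(u, w) → y u = y w) :
    ∃ c, ∀ v ∈ verts ends C, y v = c := by
  obtain ⟨n, vv, ee, hn, hvi, hei, hends, hr⟩ := hC
  refine ⟨y (vv 0), ?_⟩
  have hstep : ∀ k, y (vv k) = y (vv (k + 1)) := by
    intro k
    exact hy (ee k) (by rw [← hr]; exact ⟨_, rfl⟩) _ _ (hends k)
  have hall : ∀ j : ℕ, y (vv (j : ZMod n)) = y (vv 0) := by
    intro j
    induction j with
    | zero => simp
    | succ j ih =>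
      rw [← ih, hstep (j : ZMod n)]
      push_cast
      rfl
  have : NeZero n := ⟨by omega⟩
  have hall' : ∀ k : ZMod n, y (vv k) = y (vv 0) := by
    intro k
    have := hall k.val
    rwa [ZMod.natCast_zmod_val] at this
  rintro v ⟨e, heC, hve⟩
  rw [← hr] at heC
  obtain ⟨l, rfl⟩ := heC
  rw [hends, Sym2.mem_iff] at hve
  rcases hve with h | h
  · rw [h]; exact hall' _
  · rw [h]; exact hall' _

/-- handshake inside a class -/
theorem class_sum [Fintype V] [Fintype E] {P : Type*} (ends : E → Sym2 V)
    (hl : ∀ e, ¬ (ends e).IsDiag) (Z : Set E) (comp : V → P)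
    (hcomp : ∀ e, e ∉ Z → ∀ u w, ends e = s(u, w) → comp u = comp w) (g : E → W) (K : P) :
    ∑ v ∈ univ.filter (fun v => comp v = K), bd ends (rs Zᶜ g) v = 0 := by
  have hab : ∀ e, ∃ a b, ends e = s(a, b) := by
    intro e
    generalize ends e = p
    induction p with
    | _ a b => exact ⟨a, b, rfl⟩
  have hpc : ∃ pc : E → P, ∀ e, e ∉ Z → ∀ v, v ∈ ends e → comp v = pc e := by
    choose a b hab using hab
    refine ⟨fun e => comp (a e), ?_⟩
    intro e he v hv
    have h2 := hcomp e he _ _ (hab e)
    rw [hab e, Sym2.mem_iff] at hv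
    rcases hv with hv | hv
    · rw [hv]
    · rw [hv, ← h2]
  obtain ⟨pc, hpc⟩ := hpc
  have h1 : ∀ v, bd ends (fun e => if pc e = K then rs Zᶜ g e else 0) v =
      if comp v = K then bd ends (rs Zᶜ g) v else 0 := by
    intro v
    unfold bd
    by_cases hv : comp v = K
    · rw [if_pos hv]
      apply Finset.sum_congr rfl
      intro e he
      by_cases heZ : e ∈ Z
      · simp [rs, heZ]
      · have h1 : pc e = K := by rw [← hpc e heZ v (Finset.mem_filter.1 he).2, hv]
        simp only [h1, if_true]
    · rw [if_neg hv]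
      apply Finset.sum_eq_zero
      intro e he
      by_cases heZ : e ∈ Z
      · simp [rs, heZ]
      · have h1 : pc e ≠ K := by rw [← hpc e heZ v (Finset.mem_filter.1 he).2]; exact hv
        simp only [h1, if_false]
  rw [Finset.sum_filter]
  simp only [← h1]
  rw [sum_bd ends hl]
  apply Finset.sum_eq_zero
  intro e _
  exact W_add_self _

theorem main [Fintype V] [Fintype E] (ends : E → Sym2 V) (hl : ∀ e, ¬ (ends e).IsDiag)
    (m : ℕ) (C : Fin (m + 1) → Set E) (hC : ∀ i, IsCycle ends (C i))
    (hdisj : ∀ i j, i ≠ j → Disjoint (verts ends (C i)) (verts ends (C j)))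
    (g : E → ZMod 2 × ZMod 2) (hg : ∀ e, e ∉ ⋃ i, C i → g e ≠ 0)
    (hflow : ∀ v, (∀ i, v ∉ verts ends (C i)) → ∑ e with v ∈ ends e, g e = 0)
    (hcirc : ∀ i, i ≠ 0 → ∀ u, ∑ v with v ∈ verts ends (C i) ∧ Joined ends (⋃ i, C i) u v,
      ∑ e with v ∈ ends e ∧ e ∉ ⋃ i, C i, g e = 0) :
    ∃ D : Fin 5 → Set E, D 0 = ⋃ i, C i ∧ IsFiveCDC ends D := by
  set Z : Set E := ⋃ i, C i with hZ
  have hmemZ : ∀ e, e ∈ Z ↔ ∃ i, e ∈ C i := by intro e; simp [hZ]
  have hdeg : ∀ v, Deg02 ends Z v := by
    intro v
    by_cases h : ∃ i, v ∈ verts ends (C i)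
    · obtain ⟨i, hi⟩ := h
      right
      rw [← cycle_two (hC i) v hi]
      congr 1
      ext e
      simp only [Finset.mem_filter, Finset.mem_univ, true_and]
      constructor
      · rintro ⟨h1, h2⟩
        obtain ⟨j, hj⟩ := (hmemZ e).1 h2
        have hvj : v ∈ verts ends (C j) := ⟨e, hj, h1⟩
        by_cases hij : i = j
        · subst hij; exact ⟨h1, hj⟩
        · exact absurd hvj (Set.disjoint_left.1 (hdisj i j hij) hi)
      · rintro ⟨h1, h2⟩
        exact ⟨h1, (hmemZ e).2 ⟨i, h2⟩⟩
    · left
      rw [Finset.card_eq_zero, Finset.filter_eq_empty_iff]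
      rintro e - ⟨h1, h2⟩
      obtain ⟨j, hj⟩ := (hmemZ e).1 h2
      exact h ⟨j, e, hj, h1⟩
  -- components
  have hsymm : ∀ u v, Joined ends Z u v → Joined ends Z v u := by
    intro u v h
    unfold Joined at *
    induction h with
    | refl => exact Relation.ReflTransGen.refl
    | tail h1 h2 ih =>
      obtain ⟨e, he, hab⟩ := h2
      exact Relation.ReflTransGen.head ⟨e, he, by rw [hab, Sym2.eq_swap]⟩ ih
  let st : Setoid V := ⟨Joined ends Z, ⟨fun _ => Relation.ReflTransGen.refl, fun h => hsymm _ _ h,
    fun h h' => Relation.ReflTransGen.trans h h'⟩⟩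
  let comp : V → Quotient st := Quotient.mk st
  have hcompiff : ∀ u v, comp u = comp v ↔ Joined ends Z u v := by
    intro u v
    exact Quotient.eq (r := st)
  have hcomp : ∀ e, e ∉ Z → ∀ u w, ends e = s(u, w) → comp u = comp w := by
    intro e he u w hew
    rw [hcompiff]
    exact Relation.ReflTransGen.single ⟨e, he, hew⟩
  have hcomp' : ∀ y : V → ZMod 2, (∀ e, e ∉ Z → ∀ u w, ends e = s(u, w) → y u = y w) →
      ∃ y' : Quotient st → ZMod 2, ∀ v, y v = y' (comp v) := by
    intro y hy
    refine ⟨Quotient.lift y ?_, fun v => rfl⟩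
    intro a b hab
    have hab' : Joined ends Z a b := hab
    unfold Joined at hab'
    induction hab' with
    | refl => rfl
    | tail h1 h2 ih =>
      obtain ⟨e, he, heb⟩ := h2
      rw [ih h1, hy e he _ _ heb]
  -- vertex values
  let s : V → W := fun v => bd ends (rs Zᶜ g) v
  have hs : ∀ v, s v = ∑ e with v ∈ ends e ∧ e ∉ Z, g e := by
    intro v
    refine (bd_rs ends Zᶜ g v).trans (Finset.sum_congr ?_ (fun _ _ => rfl))
    ext e
    simp
  have hs0 : ∀ v, (∀ i, v ∉ verts ends (C i)) → s v = 0 := by
    intro v hv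
    rw [hs, ← hflow v hv]
    apply Finset.sum_congr _ (fun _ _ => rfl)
    ext e
    simp only [Finset.mem_filter, Finset.mem_univ, true_and, and_iff_left_iff_imp]
    intro h1 h2
    obtain ⟨j, hj⟩ := (hmemZ e).1 h2
    exact hv j ⟨e, hj, h1⟩
  have ht : ∀ K : Quotient st, ∀ i,
      ∑ v ∈ univ.filter (fun v => comp v = K), (if v ∈ verts ends (C i) then s v else 0) = 0 := by
    intro K
    have h1 : ∀ i, i ≠ 0 →
        ∑ v ∈ univ.filter (fun v => comp v = K), (if v ∈ verts ends (C i) then s v else 0) = 0 := by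
      intro i hi
      obtain ⟨u, rfl⟩ := Quotient.exists_rep K
      refine Eq.trans ?_ (hcirc i hi u)
      rw [← Finset.sum_filter, Finset.filter_filter]
      have hsame : (univ.filter (fun v => comp v = Quotient.mk st u ∧ v ∈ verts ends (C i))) =
          univ.filter (fun v => v ∈ verts ends (C i) ∧ Joined ends Z u v) := by
        ext v
        simp only [Finset.mem_filter, Finset.mem_univ, true_and]
        constructor
        · rintro ⟨h1, h2⟩
          exact ⟨h2, hsymm _ _ ((hcompiff v u).1 h1)⟩
        · rintro ⟨h1, h2⟩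
          exact ⟨(hcompiff v u).2 (hsymm _ _ h2), h1⟩
      rw [hsame]
      apply Finset.sum_congr rfl
      intro v _
      exact hs v
    have h2 : ∑ i, ∑ v ∈ univ.filter (fun v => comp v = K),
        (if v ∈ verts ends (C i) then s v else 0) = 0 := by
      rw [Finset.sum_comm]
      refine Eq.trans ?_ (class_sum ends hl Z comp hcomp g K)
      apply Finset.sum_congr (by ext; simp)
      intro v _
      by_cases h : ∃ i, v ∈ verts ends (C i)
      · obtain ⟨i, hi⟩ := h
        rw [Finset.sum_eq_single i]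
        · rw [if_pos hi]
        · intro j _ hji
          rw [if_neg]
          intro hj
          exact Set.disjoint_left.1 (hdisj i j (Ne.symm hji)) hi hj
        · simp
      · push Not at h
        have h0 := hs0 v h
        change _ = s v
        rw [h0]
        apply Finset.sum_eq_zero
        intro i _
        rw [if_neg (h i)]
    intro i
    by_cases hi : i = 0
    · subst hi
      rw [← Finset.add_sum_erase univ _ (mem_univ (0 : Fin (m + 1)))] at h2
      rw [Finset.sum_eq_zero (s := univ.erase 0)] at h2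
      · simpa using h2
      · intro i hi
        exact h1 i (Finset.mem_erase.1 hi).1
    · exact h1 i hi
  obtain ⟨σ, τ, hσ, hτ, hoff, hon⟩ := core ends hl Z hdeg comp hcomp hcomp' g (by
    intro y hy K
    have hc : ∀ i, ∃ c, ∀ v ∈ verts ends (C i), y v = c := by
      intro i
      exact cycle_const (hC i) y (fun e he => hy e ((hmemZ e).2 ⟨i, he⟩))
    choose c hc using hc
    refine Eq.trans (Finset.sum_congr (by ext; simp) (fun _ _ => rfl)) (b := 
      ∑ v ∈ univ.filter (fun v => comp v = K), y v • bd ends (rs Zᶜ g) v) ?_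
    have h1 : ∑ v ∈ univ.filter (fun v => comp v = K), y v • bd ends (rs Zᶜ g) v =
        ∑ i, c i • ∑ v ∈ univ.filter (fun v => comp v = K),
          (if v ∈ verts ends (C i) then s v else 0) := by
      simp only [Finset.smul_sum]
      rw [Finset.sum_comm]
      apply Finset.sum_congr rfl
      intro v _
      by_cases h : ∃ i, v ∈ verts ends (C i)
      · obtain ⟨i, hi⟩ := h
        rw [Finset.sum_eq_single i]
        · rw [if_pos hi, hc i v hi]
        · intro j _ hji
          rw [if_neg, smul_zero]
          intro hj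
          exact Set.disjoint_left.1 (hdisj i j (Ne.symm hji)) hi hj
        · simp
      · push Not at h
        have h0 := hs0 v h
        change y v • s v = _
        rw [h0, smul_zero]
        symm
        apply Finset.sum_eq_zero
        intro i _
        rw [if_neg (h i), smul_zero]
    rw [h1]
    apply Finset.sum_eq_zero
    intro i _
    rw [ht K i, smul_zero])
  apply fiveCDC ends Z hdeg σ τ hσ hτ
  · intro e he
    obtain ⟨k, hk⟩ := hoff e he
    rw [hk]
    exact rotk_ne_zero k _ (hg e he)
  · exact hon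

end Pool.Agent.Helper49.CDC
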